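import Mathlib
import Pool.Agent.Helper58.BQ.Asm

/-!
MP_896029_ag: the birational form of the section conjecture at the places over a prime `p` of an
arbitrary number field, with information modulo `p` of class two only.

`E` is a locally compact nonarchimedean field of characteristic zero and of residue characteristic
`p` (the finite extensions of the field of the `p`-adic numbers) with algebraic closure `Ω`, `k` is
a dense subfield (a number field and its completion `E` at a place over `p`, or `k = E`, or a field
which is finitely generated over the rationals and embedded in `E`), `k'` is the field generated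
over `k` by a primitive `p`-th root of unity `ζ`, `K` is an arbitrary extension field of `k`, and
`L` is an extension of `K` and of `k'` which contains the `p`-th roots of the elements of the field
`K'` generated by `K` and `ζ` and the `p`-th roots of the products of the powers
`(1 - ζ ^ m r) ^ m` for all `r` whose `p`-th power is in `K'`. All of these are contained in the
maximal `ℤ/p` abelian-by-central extension of `K'` (the Galois group is a central extension of an
elementary abelian `p`-group by an elementary abelian `p`-group). Every continuous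
homomorphism over `k'` from the absolute Galois group of `E` to the group of the automorphisms of
`L` over `K` is given by exactly one `k`-place of `K` with values in `E` and infinity.
-/

set_option autoImplicit false

namespace Pool.Agent.Results.MP_896029_ag.AbelianByCentralModP

/-- A `k`-place of `K` with values in `E` and infinity: a valuation ring of `K` and a homomorphism
from it to `E` which is the given one on the constants and whose kernel is the maximal ideal (the
elements which are not invertible in the ring go to zero). Here `j : k → K` and `i : k → E` are the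
embeddings of the field of constants. -/
@[ext] structure Place {k K E : Type} [Field k] [Field K] [Field E] (j : k →+* K) (i : k →+* E) where
  /-- the valuation ring -/
  ring : ValuationSubring K
  /-- the homomorphism -/
  hom : ring →+* E
  const : ∀ c : k, ∃ h : j c ∈ ring, hom ⟨j c, h⟩ = i c
  ker : ∀ x : ring, (x : K)⁻¹ ∉ ring → hom x = 0

/-- For a `p`-th root `r` of `f` and a `p`-th root `t` of `e` and for each `σ`: the automorphism
`ρ σ` multiplies `r` by the power of the root of unity `ξ` by which `σ` multiplies `t` (the power of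
`η` with the same exponent). In other words, the composite of `ρ` and of the Kummer cocycle of `f`
is the Kummer cocycle of `e`. -/
def SameCocycle {E Ω K L : Type} [Field E] [Field Ω] [Algebra E Ω] [Field K] [Field L]
    [Algebra K L] (p : ℕ) (ξ : L) (η : Ω) (ρ : (Ω ≃ₐ[E] Ω) →* (L ≃ₐ[K] L)) (f : K) (e : E) : Prop :=
  ∃ (r : L) (t : Ω), r ^ p = algebraMap K L f ∧ t ^ p = algebraMap E Ω e ∧
    ∀ σ : Ω ≃ₐ[E] Ω, ∃ n : ℕ, ρ σ r = ξ ^ n * r ∧ σ t = η ^ n * t

open Pool.Agent.Helper58.BP Pool.Agent.Helper58.BQ

/-- comparison of the two definitions of places -/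
def Place.toK {k K E : Type} [Field k] [Field K] [Field E] {j : k →+* K} {i : k →+* E}
    (P : Place j i) : KPlace j i := ⟨P.ring, P.hom, P.const, P.ker⟩

/-- comparison of the two definitions of places -/
def Place.ofK {k K E : Type} [Field k] [Field K] [Field E] {j : k →+* K} {i : k →+* E}
    (P : KPlace j i) : Place j i := ⟨P.ring, P.hom, P.const, P.ker⟩

lemma Place.toK_inj {k K E : Type} [Field k] [Field K] [Field E] {j : k →+* K} {i : k →+* E}
    {P Q : Place j i} (h : P.toK = Q.toK) : P = Q := by
  have := congrArg Place.ofK h
  exact this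

theorem result (p : ℕ) (hp : p.Prime) (E : Type) [NontriviallyNormedField E] [IsUltrametricDist E]
    [LocallyCompactSpace E] [CharZero E] (hpE : ‖(p : E)‖ < 1)
    (k : Type) [Field k] (i : k →+* E) (hi : DenseRange i)
    (k' : Type) [Field k'] [Algebra k k'] (ζ : k') (hζ : IsPrimitiveRoot ζ p)
    (hk' : IntermediateField.adjoin k {ζ} = ⊤)
    (K : Type) [Field K] (j : k →+* K) (L : Type) [Field L] [Algebra K L]
    (mu : k' →+* AlgebraicClosure E)
    (hmu : ∀ c : k, mu (algebraMap k k' c) = algebraMap E (AlgebraicClosure E) (i c))
    (lam : k' →+* L) (hlam : ∀ c : k, lam (algebraMap k k' c) = algebraMap K L (j c))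
    (hL : ∀ f ∈ IntermediateField.adjoin K {lam ζ}, ∃ r : L, r ^ p = f)
    (hL1 : ∀ r : L, r ^ p ∈ IntermediateField.adjoin K {lam ζ} →
      ∃ w : L, w ^ p = ∏ m ∈ Finset.range p, (1 - lam ζ ^ m * r) ^ m)
    (ρ : (AlgebraicClosure E ≃ₐ[E] AlgebraicClosure E) →* (L ≃ₐ[K] L)) (hρ : Continuous ρ)
    (hcyc : ∀ σ : AlgebraicClosure E ≃ₐ[E] AlgebraicClosure E,
      ∃ m : ℕ, σ (mu ζ) = mu ζ ^ m ∧ ρ σ (lam ζ) = lam ζ ^ m)
    (hkum : ∀ c : k', c ≠ 0 → ∃ (r : L) (t : AlgebraicClosure E), r ^ p = lam c ∧ t ^ p = mu c ∧
      ∀ σ : AlgebraicClosure E ≃ₐ[E] AlgebraicClosure E, σ (mu ζ) = mu ζ →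
        ∃ n : ℕ, ρ σ r = lam ζ ^ n * r ∧ σ t = mu ζ ^ n * t) :
    ∃! P : Place j i, ∀ f : P.ring, P.hom f ≠ 0 →
      SameCocycle p (lam ζ) (mu ζ) ρ (f : K) (P.hom f) := by
  obtain ⟨P, hP, hPu⟩ :=
    asm hp hpE i hi j hζ hk' mu hmu lam hlam hL hL1 ρ hρ hcyc hkum
  exact ⟨Place.ofK P, hP, fun Q hQ => Place.toK_inj (hPu Q.toK hQ)⟩

end Pool.Agent.Results.MP_896029_ag.AbelianByCentralModP
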