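import Mathlib
import Pool.Agent.Helper58.BQ.Gs2

/-!
MP_896029_ag, Q1 over the finite extensions `E` of the field of the `p`-adic numbers and at the
places over `p` of the number fields: every section of `π₁(X/k)` which lifts to the
elements of class two modulo `p` over the function field of the universal cover comes from a point
and has its image in the decomposition group.

`E` is a locally compact nonarchimedean field of characteristic zero and of residue characteristic
`p`, `k` is a dense subfield with algebraic closure `kb` (`k = E`, or a number field and its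
completion `E` at a place over `p`), `K` is an arbitrary extension field of `k`, `N` is an algebraic
extension of `K` which contains `kb`, `s` is a homomorphism over `kb` from the absolute Galois group
of `E` to the group of the automorphisms of `N` over `K`, and `L` is an extension of `N` which
contains the `p`-th roots of the elements `f` of `N` which are fixed by `s σ` for all `σ` fixing `ζ`
(the field generated by `ζ` and the fixed field of `s`) and, for all such `p`-th roots `r`, the
`p`-th roots of the products of the powers `(1 - ζ ^ m r) ^ m`; all of these are contained in the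
maximal `ℤ/p` abelian-by-central extension of `N` (the Galois group is a central extension of an
elementary abelian `p`-group by an elementary abelian `p`-group). Every continuous lift `ρ` of `s` to `L`
is given by exactly one place of `N`.

The case of the problem: `K = k(X)` and `N` is the function field of the universal cover of `X`, so
that the group of the automorphisms of `N` over `K` is `π₁(X)`, and `s` is a section over `k = E` or
the restriction of a section over a number field `k` to the decomposition group of a place.
-/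

set_option autoImplicit false

namespace Pool.Agent.Results.MP_896029_ag.LiftableSections

/-- A `k`-place of `K` with values in `E` and infinity: a valuation ring of `K` and a homomorphism
from it to `E` which is the given one on the constants and whose kernel is the maximal ideal (the
elements which are not invertible in the ring go to zero). Here `j : k → K` and `i : k → E` are the
embeddings of the field of constants. -/
@[ext] structure Place {k K E : Type} [Field k] [Field K] [Field E] (j : k →+* K) (i : k →+* E) where
  /-- the valuation ring -/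
  ring : ValuationSubring K
  /-- the homomorphism -/
  hom : ring →+* E
  const : ∀ c : k, ∃ h : j c ∈ ring, hom ⟨j c, h⟩ = i c
  ker : ∀ x : ring, (x : K)⁻¹ ∉ ring → hom x = 0

/-- The place `Q` of `N` commutes with the action of the Galois group: `Q (s σ x) = σ (Q x)`. -/
def Equivariant {E Ω kb K N : Type} [Field E] [Field Ω] [Algebra E Ω] [Field kb] [Field K] [Field N]
    [Algebra K N] {lam : kb →+* N} {mu : kb →+* Ω} (s : (Ω ≃ₐ[E] Ω) →* (N ≃ₐ[K] N))
    (Q : Place lam mu) : Prop :=
  ∀ (σ : Ω ≃ₐ[E] Ω) (x : Q.ring), ∃ h : s σ x ∈ Q.ring, Q.hom ⟨s σ x, h⟩ = σ (Q.hom x)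

/-- For each unit `x` of the valuation ring of `Q` which is fixed by the image of `s` there are a
`p`-th root `r` of `x` and a `p`-th root `t` of `Q x` such that `ρ σ` multiplies `r` by the same
power of the root of unity as `σ` multiplies `t`, for all `σ`. -/
def RootsCompatible {E Ω kb K N L : Type} [Field E] [Field Ω] [Algebra E Ω] [Field kb] [Field K]
    [Field N] [Field L] [Algebra K N] [Algebra N L] [Algebra K L] {lam : kb →+* N} {mu : kb →+* Ω}
    (p : ℕ) (ζ : kb) (s : (Ω ≃ₐ[E] Ω) →* (N ≃ₐ[K] N)) (ρ : (Ω ≃ₐ[E] Ω) →* (L ≃ₐ[K] L))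
    (Q : Place lam mu) : Prop :=
  ∀ x : Q.ring, (∀ σ, s σ x = x) → Q.hom x ≠ 0 → ∃ (r : L) (t : Ω),
    r ^ p = algebraMap N L x ∧ t ^ p = Q.hom x ∧
      ∀ σ, ∃ n : ℕ, ρ σ r = algebraMap N L (lam ζ) ^ n * r ∧ σ t = mu ζ ^ n * t

open Pool.Agent.Helper58.BP Pool.Agent.Helper58.BQ

/-- comparison of the two definitions of places -/
def Place.toK {k K E : Type} [Field k] [Field K] [Field E] {j : k →+* K} {i : k →+* E}
    (P : Place j i) : KPlace j i := ⟨P.ring, P.hom, P.const, P.ker⟩

/-- comparison of the two definitions of places -/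
def Place.ofK {k K E : Type} [Field k] [Field K] [Field E] {j : k →+* K} {i : k →+* E}
    (P : KPlace j i) : Place j i := ⟨P.ring, P.hom, P.const, P.ker⟩

lemma Place.toK_inj {k K E : Type} [Field k] [Field K] [Field E] {j : k →+* K} {i : k →+* E}
    {P Q : Place j i} (h : P.toK = Q.toK) : P = Q := by
  have := congrArg Place.ofK h
  exact this

theorem result (p : ℕ) (hp : p.Prime) (E : Type) [NontriviallyNormedField E] [IsUltrametricDist E]
    [LocallyCompactSpace E] [CharZero E] (hpE : ‖(p : E)‖ < 1)
    (k : Type) [Field k] (i : k →+* E) (hi : DenseRange i)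
    (kb : Type) [Field kb] [Algebra k kb] [IsAlgClosure k kb] (mu : kb →+* AlgebraicClosure E)
    (hmu : ∀ c : k, mu (algebraMap k kb c) = algebraMap E (AlgebraicClosure E) (i c))
    (K : Type) [Field K] (j : k →+* K)
    (N : Type) [Field N] [Algebra K N] [Algebra.IsAlgebraic K N] (lam : kb →+* N)
    (hlam : ∀ c : k, lam (algebraMap k kb c) = algebraMap K N (j c))
    (ζ : kb) (hζ : IsPrimitiveRoot ζ p)
    (s : (AlgebraicClosure E ≃ₐ[E] AlgebraicClosure E) →* (N ≃ₐ[K] N))
    (hs : ∀ (σ : AlgebraicClosure E ≃ₐ[E] AlgebraicClosure E) (c c' : kb),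
      mu c' = σ (mu c) → s σ (lam c) = lam c')
    (L : Type) [Field L] [Algebra N L] [Algebra K L] [IsScalarTower K N L]
    (hL : ∀ f : N, (∀ σ, σ (mu ζ) = mu ζ → s σ f = f) → ∃ r : L, r ^ p = algebraMap N L f)
    (hL1 : ∀ (r : L) (f : N), r ^ p = algebraMap N L f → (∀ σ, σ (mu ζ) = mu ζ → s σ f = f) →
      ∃ v : L, v ^ p = ∏ m ∈ Finset.range p, (1 - algebraMap N L (lam ζ) ^ m * r) ^ m)
    (ρ : (AlgebraicClosure E ≃ₐ[E] AlgebraicClosure E) →* (L ≃ₐ[K] L)) (hρ : Continuous ρ)
    (hρs : ∀ (σ : AlgebraicClosure E ≃ₐ[E] AlgebraicClosure E) (x : N),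
      ρ σ (algebraMap N L x) = algebraMap N L (s σ x)) :
    ∃ Q : Place lam mu,
      (Equivariant s Q ∧ RootsCompatible p ζ s ρ Q ∧
        ∀ Q' : Place lam mu, Equivariant s Q' → RootsCompatible p ζ s ρ Q' → Q' = Q) ∧
      (∀ σ, s σ ∈ Q.ring.decompositionSubgroup K) ∧
      ∃ P : Place j i, P.ring = Q.ring.comap (algebraMap K N) ∧
        ∀ (x : P.ring) (h : algebraMap K N x ∈ Q.ring),
          Q.hom ⟨algebraMap K N x, h⟩ = algebraMap E (AlgebraicClosure E) (P.hom x) := by
  have _ : IsAlgClosed kb := IsAlgClosure.isAlgClosed k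
  have _ : Algebra.IsAlgebraic k kb := IsAlgClosure.isAlgebraic
  have _ : CharZero (AlgebraicClosure E) :=
    charZero_of_injective_algebraMap (algebraMap E (AlgebraicClosure E)).injective
  have _ : CharZero kb := mu.charZero
  obtain ⟨Q, ⟨hQ, hK⟩, hu⟩ := gsec2 hp hpE hi hmu lam hζ s hs hL hL1 ρ hρ hρs
  obtain ⟨P, hP1, hP2⟩ := res_of hmu hlam hQ
  exact ⟨Place.ofK Q, ⟨hQ, hK, fun Q' h1 h2 => Place.toK_inj (hu Q'.toK h1 h2)⟩,
    fun σ => dec_of hQ σ, Place.ofK P, hP1, hP2⟩

end Pool.Agent.Results.MP_896029_ag.LiftableSections
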