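import Pool.Agent.Helper82.SX.Cnt2
import Pool.Agent.Helper82.SX.Fin

/-!
# Locally geometric sections of curves over elliptic curves: the places over 2

Let `F` be ANY number field. We order the elliptic curves `E : y ^ 2 = x ^ 3 + A x + B` over `F` by height. For
`f = x ^ 3 + A x + B` and a finite set `Q` of primes of `F` let `C(f, Q)` be the class of all the finite Galois
extensions `M / F` of 2-power degree (among them `F` itself) in which the primes over `2` and the
`v ∈ Q` split completely and in which only primes are ramified modulo which `f` is irreducible. There is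
no condition at the infinite places.

Let `M ∈ C(f, Q)` and let `C` be a smooth curve over `M` (projective or not, of any genus) with a morphism
to `E` which is not constant equal to the point `O` at infinity; it is given by elements `x, y` of the
function field `L` of `C` with `y ^ 2 = f(x)`. (Nothing changes for varieties `C` of any dimension.) A section
`s` of `π₁(C) → G_M`, or of `G_L → G_M`, is called locally geometric if at every FINITE place `v` of `M` it is
the section of an `M_v`-rational point of `C`, over `M_v`. Nothing is demanded at the infinite places.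

Theorem. For every number field `F`, every finite set `T` of primes of `F` and every finite extension `N / F`
there are a finite set `Q` of primes of `F`, disjoint from `T`, prime to `2` and split completely in `N`, and
`c > 0`, such that for all large `X` at least `c` times the number of ALL the elliptic curves over `F` of
height at most `X` satisfy: `f` is irreducible over `F`, modulo the primes over `2` and modulo all
`v ∈ T`, and for ALL `M ∈ C(f, Q)`, ALL `C → E` over `M` as above and ALL locally geometric sections `s` of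
`π₁(C) → G_M` we have:

(1) the image of `s` in the maximal pro-2 quotient of `π₁(E)` (the quotient of `π₁(E)` which is an
extension of `G_M` by the Tate module `T₂ E`) is the section of the point `O`;

(2) at every place `w` of `M` over `2` the section `s` is, over `M_w`, the section of an `M_w`-rational point of
`C` ABOVE `O`. In particular there is no locally geometric section at all if there is a place `w`
over `2` for which `C` has no `M_w`-rational point above `O`.

In the valuative form of the question: let `s` over `M_w` be given by the place `q` of the function field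
`L'` of the universal covering. Then the valuation ring of `q` contains `M`, but not `x`; so it belongs to
a NON-TRIVIAL valuation of `L' / M`, above a closed point of `C` which lies above `O`, and `s` maps the
decomposition group of `w` in the decomposition group of this valuation. So locally at the places over
`2` all the locally geometric sections come from valuations of `L / M`, as the conjecture says; the
point in `C(M_w)` is algebraic over `M`, and it is known in which finite set it lies.

In the Lean statement the extension `L' / L` is any extension which contains the maximal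
extension of `L` (in an algebraic closure) which is unramified over a set `U` of valuation rings of `L / M`: for
the set of all of them `Gal(L' / L)` is the fundamental group of the smooth projective curve, for
`U = ∅` it is the absolute Galois group of `L`, and in between there are the fundamental groups of the
open curves.

About the proof. The curves found have `Sel_2(E / M) = 0` for all `M ∈ C(f, Q)` (projects PF, TF, TU), so
`Sha(E / M)[2^∞] = 0` and the group `E(M)` is 2-divisible. (The real places are harmless because the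
curves found have one real root at each real place of `F`, so that all cocycles are trivial over the
reals.) The Kummer classes of the section are locally trivial, so they vanish, which is (1). For (2) the
polynomials `f` are chosen in addition such that, for `v` over `2`, no solution of `y ^ 2 = f(x)`
modulo `v ^ 2` has `f'(x) = 0` modulo `v`; then no affine point of `E` over `F_v = M_w` is divisible by all powers
of 2, and the local point of `E` given by `s` is divisible by them because of (1). That there is a positive
proportion of such curves is proved in `SX/Gfi`, `SX/Fam2` and `SX/Cnt2`.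

Project SX (helper82), based on the projects TU (helper82), PF (helper783), TF, TC, QM (helper874) and TH954 of the
library, with parts by many helpers named there.
-/

set_option autoImplicit false
set_option linter.all false

namespace Pool.Agent.Results.MP_896029_ag.SectionsAtTwoAdicPlaces

open Polynomial Filter IsDedekindDomain NumberField
open Pool.Agent.TH954 (GalSection Plc pm)
open Pool.Agent.W620.SC (unramified)
open scoped Classical

section family

variable (F : Type) [Field F] [NumberField F]

/-- The pairs of integers `(A, B)` of `F` with `4 A ^ 3 + 27 B ^ 2 ≠ 0` for which no nonzero prime ideal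
`𝔭` satisfies both `𝔭 ^ 4 ∣ A` and `𝔭 ^ 6 ∣ B`. -/
def Family : Set (𝓞 F × 𝓞 F) :=
  {p | 4 * p.1 ^ 3 + 27 * p.2 ^ 2 ≠ 0 ∧
    ∀ 𝔭 : Ideal (𝓞 F), 𝔭.IsPrime → 𝔭 ≠ ⊥ → ¬ (p.1 ∈ 𝔭 ^ 4 ∧ p.2 ∈ 𝔭 ^ 6)}

variable {F}

/-- The height `max_σ max (4 |σ A|³, 27 |σ B|²)`, over the embeddings `σ : F → ℂ`. -/
noncomputable def height (p : 𝓞 F × 𝓞 F) : ℝ :=
  ⨆ σ : F →+* ℂ, max (4 * ‖σ (p.1 : F)‖ ^ 3) (27 * ‖σ (p.2 : F)‖ ^ 2)

variable (F) in
/-- The members of the family of height at most `X`. -/
def UpTo (X : ℝ) : Set (𝓞 F × 𝓞 F) := {p ∈ Family F | height p ≤ X}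

/-- The polynomial `f = x ^ 3 + A x + B`. -/
noncomputable def poly (p : 𝓞 F × 𝓞 F) : (𝓞 F)[X] := X ^ 3 + C p.1 * X + C p.2

/-- The curve `E : y ^ 2 = x ^ 3 + A x + B` over the extension `M` of `F`. -/
def curve (M : Type) [Field M] [Algebra F M] (p : 𝓞 F × 𝓞 F) : WeierstrassCurve M :=
  ⟨0, 0, 0, algebraMap F M (p.1 : F), algebraMap F M (p.2 : F)⟩

end family

section fields

variable {F : Type} [Field F] [NumberField F]

/-- `f` is irreducible modulo `v`. -/
def IrreducibleMod (f : (𝓞 F)[X]) (v : HeightOneSpectrum (𝓞 F)) : Prop :=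
  Irreducible (f.map (Ideal.Quotient.mk v.asIdeal))

/-- `M / F` is unramified at `v`. -/
def Unramified (v : HeightOneSpectrum (𝓞 F)) (M : Type) [Field M] [NumberField M]
    [Algebra F M] : Prop :=
  ∀ w : HeightOneSpectrum (𝓞 M), v.asIdeal.map (algebraMap (𝓞 F) (𝓞 M)) ≤ w.asIdeal →
    ¬ v.asIdeal.map (algebraMap (𝓞 F) (𝓞 M)) ≤ w.asIdeal ^ 2

/-- `v` splits completely in `M`: it is unramified and all integers of `M` are congruent to integers of
`F` modulo every prime over `v`. -/
def SplitsCompletely (v : HeightOneSpectrum (𝓞 F)) (M : Type) [Field M] [NumberField M]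
    [Algebra F M] : Prop :=
  Unramified v M ∧
  ∀ w : HeightOneSpectrum (𝓞 M), v.asIdeal.map (algebraMap (𝓞 F) (𝓞 M)) ≤ w.asIdeal →
    ∀ y : 𝓞 M, ∃ c : 𝓞 F, y - algebraMap (𝓞 F) (𝓞 M) c ∈ w.asIdeal

/-- `M` belongs to the class `C(f, Q)`. (For a Galois extension an embedding over `F` in the completion of
`F` at `v` exists if and only if `v` splits completely.) -/
structure InClass (Q : Finset (HeightOneSpectrum (𝓞 F))) (f : (𝓞 F)[X]) (M : Type) [Field M]
    [NumberField M] [Algebra F M] : Prop where
  galois : IsGalois F M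
  degree : ∃ n : ℕ, Module.finrank F M = 2 ^ n
  two : ∀ v : HeightOneSpectrum (𝓞 F), (2 : 𝓞 F) ∈ v.asIdeal →
    Nonempty (M →ₐ[F] v.adicCompletion F)
  split : ∀ v ∈ Q, SplitsCompletely v M
  ramified : ∀ v : HeightOneSpectrum (𝓞 F), Unramified v M ∨ IrreducibleMod f v

end fields

section sections

variable {M : Type} [Field M] [NumberField M]
variable {L L' B : Type} [Field L] [Field L'] [Field B] [Algebra M L] [Algebra L L']
  [Algebra M L'] [IsScalarTower M L L'] [Algebra M B]

/-- The section `s` of `Gal(L' / L) → Gal(B / M)` is given by a rational point over the completion of `M`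
at every finite place. -/
def LocallyGeometric (s : GalSection M L L' B) : Prop :=
  ∀ v : HeightOneSpectrum (𝓞 M),
    s.GeometricOver (v.adicCompletion M) (AlgebraicClosure (v.adicCompletion M))

/-- The image of the section `s`, through the point `P` of `E` over `L`, in the maximal pro-2 quotient of
the fundamental group of `E` is the section of the point `O`: for every `n` there is a point `Q` of `E`
over `L'` with `2 ^ n Q = P` which is fixed by all the automorphisms `s g`. -/
def ImageAtInfinity (s : GalSection M L L' B) (E : WeierstrassCurve M)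
    (P : (E.baseChange L).toAffine.Point) : Prop :=
  ∀ n : ℕ, ∃ Q : (E.baseChange L').toAffine.Point,
    2 ^ n • Q = pm E (IsScalarTower.toAlgHom M L L') P ∧
    ∀ g : B ≃ₐ[M] B, pm E ((s.s g : L' →ₐ[L] L').restrictScalars M) Q = Q

/-- Over the completion of `M` at `w` there is a rational point at which `x` has a pole (a place of `L` over
`M` with values in this completion whose valuation ring does not contain `x`), and every place of
`L'` which gives the section `s` over this completion is a pole of `x`. -/
structure PoleAt (s : GalSection M L L' B) (x : L) (w : HeightOneSpectrum (𝓞 M)) : Prop where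
  point : ∃ q : Plc M L (w.adicCompletion M), x ∉ q.W
  places : ∀ q : Plc M L' (AlgebraicClosure (w.adicCompletion M)),
    s.GivenBy (w.adicCompletion M) q → algebraMap L L' x ∉ q.W

end sections

section good

variable {F : Type} [Field F] [NumberField F]

/-- The properties of the elliptic curves in the theorem. -/
structure Good (Q T : Finset (HeightOneSpectrum (𝓞 F))) (p : 𝓞 F × 𝓞 F) : Prop where
  irreducible : Irreducible ((poly p).map (algebraMap (𝓞 F) F))
  two : ∀ v : HeightOneSpectrum (𝓞 F), (2 : 𝓞 F) ∈ v.asIdeal → IrreducibleMod (poly p) v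
  mod : ∀ v ∈ T, IrreducibleMod (poly p) v
  sections : ∀ (M : Type) [Field M] [NumberField M] [Algebra F M], InClass Q (poly p) M →
    ∀ (L Ω L' B : Type) [Field L] [Field Ω] [Field L'] [Field B] [Algebra M L] [Algebra L Ω]
      [Algebra M Ω] [IsScalarTower M L Ω] [Algebra L L'] [Algebra M L'] [IsScalarTower M L L']
      [Algebra M B] [IsAlgClosure L Ω] [IsAlgClosure M B]
      (U : Set (ValuationSubring L)), (∀ O ∈ U, ∀ c : M, algebraMap M L c ∈ O) →
      ∀ e : L' →ₐ[L] Ω, unramified L Ω U ≤ e.fieldRange →
      ∀ (x y : L) (h : ((curve M p).baseChange L).toAffine.Nonsingular x y)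
        (s : GalSection M L L' B), LocallyGeometric s →
        ImageAtInfinity s (curve M p) (.some x y h) ∧
        ∀ w : HeightOneSpectrum (𝓞 M), (2 : 𝓞 M) ∈ w.asIdeal → PoleAt s x w

end good

/-- Primes which split completely, in terms of ideals. -/
theorem split_of {F : Type} [Field F] [NumberField F] {v : HeightOneSpectrum (𝓞 F)} {M : Type}
    [Field M] [NumberField M] [Algebra F M] (h : Pool.Agent.N874.TF.Spl v M) :
    SplitsCompletely v M := by
  refine ⟨fun w hw hw2 => ?_, fun w hw y => ?_⟩
  · obtain ⟨a, ha, ha2⟩ : ∃ a ∈ v.asIdeal, a ∉ v.asIdeal ^ 2 := by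
      by_contra hc
      push Not at hc
      have h1 : v.asIdeal ≤ v.asIdeal ^ 2 := hc
      have h2 : v.asIdeal ^ 2 < v.asIdeal :=
        Ideal.pow_lt_self v.asIdeal v.ne_bot v.isPrime.ne_top 2 le_rfl
      exact absurd h1 (not_le_of_gt h2)
    have h1 := Pool.Agent.N874.TF.val_exp ha ha2
    have h2 := h.1 w (Ideal.map_le_iff_le_comap.1 hw) (a : F)
    rw [h1] at h2
    have h3 : algebraMap (𝓞 F) (𝓞 M) a ∈ w.asIdeal ^ 2 := hw2 (Ideal.mem_map_of_mem _ ha)
    have h4 := (w.intValuation_le_pow_iff_mem (algebraMap (𝓞 F) (𝓞 M) a) 2).2 h3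
    have h5 : w.valuation M (algebraMap F M (a : F)) =
        w.intValuation (algebraMap (𝓞 F) (𝓞 M) a) := by
      rw [← HeightOneSpectrum.valuation_of_algebraMap (K := M)]
      rfl
    rw [← h5, h2] at h4
    rw [WithZero.exp_le_exp] at h4
    norm_num at h4
  · obtain ⟨c, hc⟩ := h.2 w (Ideal.map_le_iff_le_comap.1 hw) (Ideal.Quotient.mk w.asIdeal y)
    exact ⟨c, Ideal.Quotient.eq.1 hc.symm⟩

theorem spl_of {F : Type} [Field F] [NumberField F] (M : Type) [Field M] [NumberField M]
    [Algebra F M] (v : HeightOneSpectrum (𝓞 F)) (hv : SplitsCompletely v M) :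
    Pool.Agent.N874.TF.Spl v M := by
  refine ⟨Pool.Agent.N874.TF.unr_of hv.1, fun w hw y => ?_⟩
  obtain ⟨y, rfl⟩ := Ideal.Quotient.mk_surjective y
  obtain ⟨c, hc⟩ := hv.2 w (Ideal.map_le_iff_le_comap.2 hw) y
  exact ⟨c, (Ideal.Quotient.eq.2 hc).symm⟩

theorem crv_iff {F : Type} [Field F] [NumberField F] (X : ℝ) (p : 𝓞 F × 𝓞 F) :
    Pool.Agent.N783.PF.Crv X p ↔ p ∈ UpTo F X := by
  have hb : BddAbove (Set.range fun σ : F →+* ℂ =>
      max (4 * ‖σ (p.1 : F)‖ ^ 3) (27 * ‖σ (p.2 : F)‖ ^ 2)) := Set.Finite.bddAbove (Set.finite_range _)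
  constructor
  · rintro ⟨h1, h2, h3⟩
    refine ⟨⟨h1, h2⟩, ciSup_le fun σ => max_le (h3 σ).1 (h3 σ).2⟩
  · rintro ⟨⟨h1, h2⟩, h3⟩
    refine ⟨h1, h2, fun σ => ?_⟩
    have h4 := (le_ciSup hb σ).trans h3
    exact ⟨(le_max_left _ _).trans h4, (le_max_right _ _).trans h4⟩

/-- **Locally geometric sections at the places over 2.** For every number field `F`, every finite set `T` of
primes and every finite extension `N / F` there are a finite set `Q` of primes, disjoint from `T`, prime to 2
and split completely in `N`, and `c > 0` such that for all large `X` at least `c` times the number of all the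
elliptic curves `E : y ^ 2 = x ^ 3 + A x + B` over `F` of height at most `X` are good: for ALL the
fields `M` in the class `C(f, Q)`, ALL curves `C` over `M` with a morphism to `E` which is not constant equal
to `O` and ALL locally geometric sections of `π₁(C) → G_M`, the image in the maximal pro-2 quotient of
`π₁(E)` is the section of `O`, and at every place over 2 the section is the section of a point of
`C` above `O`. -/
theorem result (F : Type) [Field F] [NumberField F] (T : Finset (HeightOneSpectrum (𝓞 F)))
    (N : Type) [Field N] [NumberField N] [Algebra F N] :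
    (∀ X : ℝ, (UpTo F X).Finite) ∧
    ∃ Q : Finset (HeightOneSpectrum (𝓞 F)), Disjoint Q T ∧ (∀ v ∈ Q, (2 : 𝓞 F) ∉ v.asIdeal) ∧
      (∀ v ∈ Q, SplitsCompletely v N) ∧
      ∃ c : ℝ, 0 < c ∧ ∀ᶠ X : ℝ in atTop, 0 < (UpTo F X).ncard ∧
        c * ((UpTo F X).ncard : ℝ) ≤ ({p ∈ UpTo F X | Good Q T p}.ncard : ℝ) := by
  have hset : ∀ X : ℝ, UpTo F X = {p : 𝓞 F × 𝓞 F | Pool.Agent.N783.PF.Crv X p} := by
    intro X
    ext p
    exact (crv_iff X p).symm
  obtain ⟨Q, hQT, hQ2, hQN, c₀, hc₀, B₀, hB₀⟩ := Pool.Agent.Helper82.SX.main2 F (g := 1) rfl T N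
  have h1 : ∃ c : ℝ, 0 < c ∧ ∃ B₀ : ℕ, ∀ B ≥ B₀,
      {f : (𝓞 F)[X] | Pool.Agent.N783.PF.Ht 1 B f}.Finite ∧
      c * ({f : (𝓞 F)[X] | Pool.Agent.N783.PF.Ht 1 B f}.ncard : ℝ) ≤
        ({f : (𝓞 F)[X] | Pool.Agent.N783.PF.Ht 1 B f ∧ Irreducible (Pool.Agent.N783.PF.fF f) ∧
          ((∀ v : HeightOneSpectrum (𝓞 F), (2 : 𝓞 F) ∈ v.asIdeal →
            Irreducible (Pool.Agent.N783.PF.rd v.asIdeal f)) ∧
          (∀ v ∈ T, Irreducible (Pool.Agent.N783.PF.rd v.asIdeal f)) ∧
          Pool.Agent.Helper82.TU.MonoF f ∧
          Pool.Agent.Helper82.TU.Unr2 {𝔭 | ∃ v ∈ Q, 𝔭 = v.asIdeal} f f ∧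
          ∀ v : HeightOneSpectrum (𝓞 F), (2 : 𝓞 F) ∈ v.asIdeal →
            Pool.Agent.Helper82.SX.RegP v f) ∧ Pool.Agent.N783.PF.Min 1 f}.ncard : ℝ) := by
    refine ⟨c₀, hc₀, B₀, fun B hB => ?_⟩
    obtain ⟨k1, k2⟩ := hB₀ B hB
    refine ⟨k1, k2.trans (Nat.cast_le.2 (Set.ncard_le_ncard ?_ (k1.subset fun f hf => hf.1)))⟩
    rintro f ⟨m1, m2, m3, m4, m5, -, m6, m7, m8⟩
    exact ⟨m1, m2, ⟨m3, m4, m5, m6, m8⟩, m7⟩
  obtain ⟨c, hc, Y₀, hY⟩ := Pool.Agent.N874.TF.fin_gen Pool.Agent.N490.PF.pts (F := F)
    (Gd := Good Q T) h1 (by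
    rintro B f hHt hirr ⟨k1, k2, k3, k4, k5⟩
    have e : f = Pool.Agent.N61.PF.pol (f.coeff 1) (f.coeff 0) := Pool.Agent.N61.PF.eq_pol hHt
    generalize f.coeff 1 = a at e ⊢
    generalize f.coeff 0 = b at e ⊢
    subst e
    refine ⟨hirr, k1, k2, ?_⟩
    intro M _ _ _ hM L Ω L' B _ _ _ _ _ _ _ _ _ _ _ _ _ _ U hU e he x y h s hs
    haveI := hM.galois
    obtain ⟨n, hn⟩ := hM.degree
    have hsel := k4 M (fun v hv => by
        obtain ⟨σ⟩ := hM.two v hv
        exact ⟨σ, fun y => σ.commutes y⟩) n hn (by
        rintro v ⟨v', hv', h⟩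
        rw [HeightOneSpectrum.ext h]
        exact spl_of M v' (hM.split v' hv')) (by
        intro v hv
        rcases hM.ramified v with h | h
        · exact absurd (Pool.Agent.N874.TF.unr_of h) hv
        · exact h)
    obtain ⟨m1, m2⟩ := Pool.Agent.Helper82.SX.sec_fin hn hirr hsel k3 k1 k5 hM.two U hU e he h s hs
    exact ⟨m1, fun w hw => ⟨(m2 w hw).1, (m2 w hw).2⟩⟩)
  refine ⟨fun X => by rw [hset]; exact (hY X).1, Q, hQT, hQ2, fun v hv => split_of (hQN v hv), c,
    hc, ?_⟩
  filter_upwards [eventually_ge_atTop Y₀] with X hX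
  obtain ⟨k1, k2⟩ := (hY X).2 hX
  rw [← hset] at k1 k2
  refine ⟨k1, k2.trans (le_of_eq ?_)⟩
  congr 2
  ext p
  exact and_congr_left fun _ => crv_iff X p

end Pool.Agent.Results.MP_896029_ag.SectionsAtTwoAdicPlaces
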