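import Pool.Agent.Helper82.SY.Cnt
import Pool.Agent.Helper82.SY.Two
import Pool.Agent.Helper82.SZ.Fin

/-!
# Locally geometric sections of curves over hyperelliptic curves of every genus: the pro-2 part of the Jacobian
# and the places over 2

Let `F` be ANY number field and `g ≥ 1`. We consider ALL polynomials
`f = x ^ (2 g + 1) + a_(2 g - 1) x ^ (2 g - 1) + ... + a_0` with coefficients in the ring of integers of `F`,
ordered by the height: `|σ a_i| ≤ B ^ (2 g + 1 - i)` for all embeddings `σ : F → ℂ`. (Every hyperelliptic
curve of genus `g` over `F` with a rational Weierstrass point has an equation `y ^ 2 = f(x)` with such an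
`f`; the Weierstrass point is the point `∞`.)

For `f` and a finite set `Q` of primes of `F` let `C(f, Q)` be the class of all the finite Galois extensions
`M / F` of 2-power degree (among them `F` itself) in which the primes over `2` and the `v ∈ Q` split
completely and in which only primes are ramified modulo which `f` is irreducible. There is no condition
at the infinite places.

Let `M ∈ C(f, Q)`, let `X : y ^ 2 = f(x)` over `M`, with Jacobian `J`, and let `C` be ANY curve over `M` (smooth,
projective or not, of any genus), with function field `L`. (Nothing changes for varieties `C` of any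
dimension.) A section `s` of `π₁(C) → G_M`, or of `G_L → G_M`, is called locally geometric if at every FINITE
place `v` of `M` it is the section of an `M_v`-rational point of `C`, over `M_v`. Nothing is demanded at the
infinite places. Let `L'` be the function field of the universal covering of `C`, `Gal(L' / L) = π₁(C)`,
and `H ⊆ L'` the fixed field of the image of `s` (the intersection of the function fields of the
neighbourhoods of `s`, so that `L' = H ⊗ M̄`).

Theorem. For every number field `F`, every `g ≥ 1`, every finite set `T` of primes of `F` and every finite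
extension `N / F` there are a finite set `Q` of primes of `F`, disjoint from `T`, prime to `2` and split
completely in `N`, and a constant `c > 0` such that for all large `B` at least `c` times the number of all the
`f` of height at most `B` satisfy: `f` is irreducible over `F`, modulo the primes over `2` and modulo all
`v ∈ T`, and for ALL `M ∈ C(f, Q)`, ALL curves `C` over `M` and ALL locally geometric sections `s` of
`π₁(C) → G_M` we have:

(1) Multiplication by 2 on `J(H)` is bijective. In particular for every `D ∈ J(L)`, that is, for every
rational map `C → J`, and every `n` there is exactly one `D_n ∈ J(H)` with `2 ^ n D_n = D`.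

The last statement means: for every `n` the image of `s` in the quotient `π₁(J) / 2 ^ n` (an extension
of `G_M` by `J[2 ^ n]`) is the section of the point `0`. Indeed `π₁(J) / 2 ^ n` belongs to the covering
`2 ^ n : J → J`, the fibre of this covering over `D` consists of the `D_n ∈ J(L')` with `2 ^ n D_n = D`, and the
class of `s` in `H ^ 1 (M, J[2 ^ n])` is zero if and only if `s` fixes one of them. So for every non-constant
morphism `C → J`, in particular for the morphisms `C → X → J`, the pro-2 part of `π₁(J)` does not see a
difference between `s` and the section of the point `0`. For `C = X` this says that the image of `s` in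
the largest quotient of `π₁(X)` whose geometric part is abelian and pro-2 is the section of `∞`.

(2) If `C` has a morphism to `X` which is not constant equal to `∞` (given by `x, y ∈ L` with `y ^ 2 = f(x)`; the
following is also proved for all larger `L'`), then the square roots of the functions `x - θ`, `f(θ) = 0`, with
leading coefficient 1 at `∞` are permuted by the automorphisms `s(γ)` like the `θ` (`TrivialModTwo`), and at
every place `w` of `M` over `2` the section `s` is, over `M_w`, the section of an `M_w`-rational point of `C`
whose image in `X(M_w)` is `∞` or satisfies `|x|_w > 1`, that is, has the same reduction as `∞`; and this is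
true for EVERY place of the covering which gives the section over `M_w` (`NearInfinity`). In particular
there is no locally geometric section at all if there is a place `w` over `2` for which no `M_w`-rational
point of `C` lies above the residue disc of `∞`.

In the Lean statement `U` is any set of valuation rings of `L / M` and `L'` is isomorphic to the maximal
extension of `L` (in an algebraic closure) which is unramified over `U`: for the set of all valuation rings
`Gal(L' / L)` is the fundamental group of the smooth projective curve, for `U = ∅` it is the absolute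
Galois group of `L`, and in between there are the fundamental groups of the open curves. `J f H` is
the group `J(H)`, written multiplicatively: the Picard group of `H[x, y] / (y ^ 2 - f(x))`.

About the proof. The curves found have `Sel_2(J / M) = 0` for all `M ∈ C(f, Q)` (projects PF, TF, TU). (The
real places are harmless because the `f` found have positive derivative on the real line at each real
place of `F`, so that all classes are trivial over the reals.) Let `D ∈ J(H)` be the class of the divisor of
a polynomial `p` over `H`, `p ∣ c ^ 2 - f`. The square roots of `± p(θ)` are in `L'` (`SZ/Unr`: they are unramified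
outside the places with poles of constants), and `s` gives the Kummer class of `D` in `H ^ 1 (M, J[2])`,
represented by `h(θ)` with a polynomial `h` over `M` by Hilbert's theorem 90 (`SZ/Kum`). It satisfies the
local conditions at the finite places: the place which gives `s` over `M_v` extends to the splitting field
`N'` of `p` over `L'`, the divisor is a sum of points over `N'`, and its specialisation is a divisor over `M_v`
with the Kummer class `h(θ)`; the points which go to `∞` or to branch points, and the Galois action on them,
need care (`SZ/Lft`, `SZ/Rat`, `SZ/Spc`). So `h(θ)` is a square in `M(θ)`, therefore `± p(θ)` is a square in `H(θ)`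
(`SZ/Hlf`), and as `f` is irreducible over `H` the group `J(H)` is uniquely divisible by 2 (library).

This replaces the earlier hand-in `SectionsModuloTwo` (the part (2) of the theorem). For `g = 1` the result
`SectionsAtTwoAdicPlaces` of this problem says more at the places over 2 (a point above `∞`).

Project SZ (helper82): modules Ext, Conj by helper84 (extension and conjugacy of places), modules Fix, Odd,
Bra, Div by helper97 (the Kummer class of a divisor given by a Galois stable set of points). Based on the
projects TU, SX, SY (helper82), PF (helper783), TF, TC, QM (helper874), JB (helper352) and TH954 of the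
library, with parts by many helpers named there.
-/

set_option autoImplicit false
set_option linter.all false

namespace Pool.Agent.Results.MP_896029_ag.SectionsProTwo

open Polynomial Filter IsDedekindDomain NumberField
open Pool.Agent.TH954 (GalSection Plc)
open Pool.Agent.W620.SC (unramified)
open Pool.Agent.N874.Jac (J mapJ)
open scoped Classical

section defs

variable {F : Type} [Field F] [NumberField F]

/-- `f` is a monic polynomial of degree `2 g + 1` with integral coefficients, without term of degree
`2 g`, and of height at most `B`: all conjugates of the coefficient of degree `j` are at most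
`B ^ (2 g + 1 - j)` in absolute value. -/
structure IsPoly (g B : ℕ) (f : (𝓞 F)[X]) : Prop where
  monic : f.Monic
  degree : f.natDegree = 2 * g + 1
  trace : f.coeff (2 * g) = 0
  height : ∀ j ≤ 2 * g, ∀ σ : F →+* ℂ, ‖σ (f.coeff j : F)‖ ≤ (B : ℝ) ^ (2 * g + 1 - j)

variable (F) in
/-- The polynomials `f` of height at most `B`. -/
def Polys (g B : ℕ) : Set (𝓞 F)[X] := {f | IsPoly g B f}

/-- The polynomial `f` over an extension `M` of `F`. -/
noncomputable def base (M : Type) [Field M] [Algebra F M] (f : (𝓞 F)[X]) : M[X] :=
  (f.map (algebraMap (𝓞 F) F)).map (algebraMap F M)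

/-- `f` is irreducible modulo `v`. -/
def IrreducibleMod (f : (𝓞 F)[X]) (v : HeightOneSpectrum (𝓞 F)) : Prop :=
  Irreducible (f.map (Ideal.Quotient.mk v.asIdeal))

/-- `M / F` is unramified at `v`. -/
def Unramified (v : HeightOneSpectrum (𝓞 F)) (M : Type) [Field M] [NumberField M]
    [Algebra F M] : Prop :=
  ∀ w : HeightOneSpectrum (𝓞 M), v.asIdeal.map (algebraMap (𝓞 F) (𝓞 M)) ≤ w.asIdeal →
    ¬ v.asIdeal.map (algebraMap (𝓞 F) (𝓞 M)) ≤ w.asIdeal ^ 2

/-- `v` splits completely in `M`: it is unramified and all integers of `M` are congruent to integers of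
`F` modulo every prime over `v`. -/
def SplitsCompletely (v : HeightOneSpectrum (𝓞 F)) (M : Type) [Field M] [NumberField M]
    [Algebra F M] : Prop :=
  Unramified v M ∧
  ∀ w : HeightOneSpectrum (𝓞 M), v.asIdeal.map (algebraMap (𝓞 F) (𝓞 M)) ≤ w.asIdeal →
    ∀ y : 𝓞 M, ∃ c : 𝓞 F, y - algebraMap (𝓞 F) (𝓞 M) c ∈ w.asIdeal

/-- `M` belongs to the class `C(f, Q)`. (For a Galois extension an embedding over `F` in the completion of
`F` at `v` exists if and only if `v` splits completely.) -/
structure InClass (Q : Finset (HeightOneSpectrum (𝓞 F))) (f : (𝓞 F)[X]) (M : Type) [Field M]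
    [NumberField M] [Algebra F M] : Prop where
  galois : IsGalois F M
  degree : ∃ n : ℕ, Module.finrank F M = 2 ^ n
  two : ∀ v : HeightOneSpectrum (𝓞 F), (2 : 𝓞 F) ∈ v.asIdeal →
    Nonempty (M →ₐ[F] v.adicCompletion F)
  split : ∀ v ∈ Q, SplitsCompletely v M
  ramified : ∀ v : HeightOneSpectrum (𝓞 F), Unramified v M ∨ IrreducibleMod f v

end defs

section sections

variable {M : Type} [Field M] [NumberField M]
variable {L L' B : Type} [Field L] [Field L'] [Field B] [Algebra M L] [Algebra L L']
  [Algebra M L'] [IsScalarTower M L L'] [Algebra M B]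

/-- The section `s` of `Gal(L' / L) → Gal(B / M)` is given by a rational point over the completion of `M`
at every finite place. -/
def LocallyGeometric (s : GalSection M L L' B) : Prop :=
  ∀ v : HeightOneSpectrum (𝓞 M),
    s.GeometricOver (v.adicCompletion M) (AlgebraicClosure (v.adicCompletion M))

/-- The fixed field `H` in `L'` of the image of the section `s`. -/
noncomputable abbrev fixed (s : GalSection M L L' B) : IntermediateField L L' :=
  IntermediateField.fixedField s.s.range

/-- The embedding of `L` in the fixed field of `s`. -/
noncomputable def incl (s : GalSection M L L' B) : L →ₐ[M] fixed s :=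
  (Algebra.ofId L (fixed s)).restrictScalars M

/-- Let `J` be the Jacobian of `y ^ 2 = f(x)`, and `H` the fixed field of `s`. Multiplication by 2 (written as
a square) is bijective on `J(H)`, and every `D ∈ J(L)` is divisible by `2 ^ n` in `J(H)` in exactly one way:
the image of `s` in the quotient of the fundamental group of `J` which belongs to the covering
`2 ^ n : J → J` is the section of the point `0`. -/
structure ProTwoTrivial (s : GalSection M L L' B) (f : M[X]) : Prop where
  double : Function.Bijective fun P : J f (fixed s) => P ^ 2
  roots : ∀ (n : ℕ) (D : J f L), ∃! E : J f (fixed s), E ^ 2 ^ n = mapJ f (incl s) D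

/-- The image of the section `s` in the largest quotient of the fundamental group of `X : y ^ 2 = f(x)`
which is geometrically abelian of exponent 2 is the section of the point at infinity: there are square
roots `r θ` in `L'` of `x - θ`, for all the zeros `θ` of `f`, which are permuted by the automorphisms `s γ`
like the zeros. -/
def TrivialModTwo (s : GalSection M L L' B) (f : M[X]) (x : L) : Prop :=
  ∃ r : B → L', (∀ θ : B, aeval θ f = 0 → r θ ^ 2 = algebraMap L L' x - s.j θ) ∧
    ∀ (γ : B ≃ₐ[M] B) (θ : B), aeval θ f = 0 → s.s γ (r θ) = r (γ θ)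

/-- Over the completion of `M` at `w` there is a rational point at which `x` has a pole or a value of
absolute value greater than 1 (a place of `L` over `M` with values in this completion), and at every place
of `L'` which gives the section `s` over this completion `x` has a pole or a value in the completion
of absolute value greater than 1. -/
structure NearInfinity (s : GalSection M L L' B) (x : L) (w : HeightOneSpectrum (𝓞 M)) : Prop where
  point : ∃ q : Plc M L (w.adicCompletion M),
    x ∉ q.W ∨ ∃ a : w.adicCompletion M, q.val x a ∧ 1 < Valued.v a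
  places : ∀ q : Plc M L' (AlgebraicClosure (w.adicCompletion M)),
    s.GivenBy (w.adicCompletion M) q → algebraMap L L' x ∉ q.W ∨ ∃ a : w.adicCompletion M,
      q.val (algebraMap L L' x)
        (algebraMap (w.adicCompletion M) (AlgebraicClosure (w.adicCompletion M)) a) ∧
      1 < Valued.v a

end sections

section good

variable {F : Type} [Field F] [NumberField F]

/-- The properties of the curves `X : y ^ 2 = f(x)` in the theorem. -/
structure Good (Q T : Finset (HeightOneSpectrum (𝓞 F))) (f : (𝓞 F)[X]) : Prop where
  irreducible : Irreducible (f.map (algebraMap (𝓞 F) F))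
  two : ∀ v : HeightOneSpectrum (𝓞 F), (2 : 𝓞 F) ∈ v.asIdeal → IrreducibleMod f v
  mod : ∀ v ∈ T, IrreducibleMod f v
  jacobian : ∀ (M : Type) [Field M] [NumberField M] [Algebra F M], InClass Q f M →
    ∀ (L Ω L' B : Type) [Field L] [Field Ω] [Field L'] [Field B] [Algebra M L] [Algebra L Ω]
      [Algebra M Ω] [IsScalarTower M L Ω] [Algebra L L'] [Algebra M L'] [IsScalarTower M L L']
      [Algebra M B] [IsAlgClosure L Ω] [IsAlgClosure M B]
      (U : Set (ValuationSubring L)), (∀ O ∈ U, ∀ c : M, algebraMap M L c ∈ O) →
      ∀ e : L' →ₐ[L] Ω, e.fieldRange = unramified L Ω U →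
      ∀ s : GalSection M L L' B, LocallyGeometric s → ProTwoTrivial s (base M f)
  sections : ∀ (M : Type) [Field M] [NumberField M] [Algebra F M], InClass Q f M →
    ∀ (L Ω L' B : Type) [Field L] [Field Ω] [Field L'] [Field B] [Algebra M L] [Algebra L Ω]
      [Algebra M Ω] [IsScalarTower M L Ω] [Algebra L L'] [Algebra M L'] [IsScalarTower M L L']
      [Algebra M B] [IsAlgClosure L Ω] [IsAlgClosure M B]
      (U : Set (ValuationSubring L)), (∀ O ∈ U, ∀ c : M, algebraMap M L c ∈ O) →
      ∀ e : L' →ₐ[L] Ω, unramified L Ω U ≤ e.fieldRange →
      ∀ x y : L, y ^ 2 = aeval x (base M f) → ∀ s : GalSection M L L' B, LocallyGeometric s →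
        TrivialModTwo s (base M f) x ∧
        ∀ w : HeightOneSpectrum (𝓞 M), (2 : 𝓞 M) ∈ w.asIdeal → NearInfinity s x w

end good

/-- Primes which split completely, in terms of ideals. -/
theorem split_of {F : Type} [Field F] [NumberField F] {v : HeightOneSpectrum (𝓞 F)} {M : Type}
    [Field M] [NumberField M] [Algebra F M] (h : Pool.Agent.N874.TF.Spl v M) :
    SplitsCompletely v M := by
  refine ⟨fun w hw hw2 => ?_, fun w hw y => ?_⟩
  · obtain ⟨a, ha, ha2⟩ : ∃ a ∈ v.asIdeal, a ∉ v.asIdeal ^ 2 := by
      by_contra hc
      push Not at hc
      have h1 : v.asIdeal ≤ v.asIdeal ^ 2 := hc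
      have h2 : v.asIdeal ^ 2 < v.asIdeal :=
        Ideal.pow_lt_self v.asIdeal v.ne_bot v.isPrime.ne_top 2 le_rfl
      exact absurd h1 (not_le_of_gt h2)
    have h1 := Pool.Agent.N874.TF.val_exp ha ha2
    have h2 := h.1 w (Ideal.map_le_iff_le_comap.1 hw) (a : F)
    rw [h1] at h2
    have h3 : algebraMap (𝓞 F) (𝓞 M) a ∈ w.asIdeal ^ 2 := hw2 (Ideal.mem_map_of_mem _ ha)
    have h4 := (w.intValuation_le_pow_iff_mem (algebraMap (𝓞 F) (𝓞 M) a) 2).2 h3
    have h5 : w.valuation M (algebraMap F M (a : F)) =
        w.intValuation (algebraMap (𝓞 F) (𝓞 M) a) := by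
      rw [← HeightOneSpectrum.valuation_of_algebraMap (K := M)]
      rfl
    rw [← h5, h2] at h4
    rw [WithZero.exp_le_exp] at h4
    norm_num at h4
  · obtain ⟨c, hc⟩ := h.2 w (Ideal.map_le_iff_le_comap.1 hw) (Ideal.Quotient.mk w.asIdeal y)
    exact ⟨c, Ideal.Quotient.eq.1 hc.symm⟩

/-- **Locally geometric sections: the pro-2 part of the Jacobian, and the places over 2.** For every number
field `F`, every `g ≥ 1`, every finite set `T` of primes and every finite extension `N / F` there are a finite
set `Q` of primes, disjoint from `T`, prime to 2 and split completely in `N`, and `c > 0` such that for all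
large `B` at least `c` times the number of all the `f` of height at most `B` are good: for ALL the fields `M`
in the class `C(f, Q)`, ALL curves `C` over `M` and ALL locally geometric sections `s` of `π₁(C) → G_M`
the group `J(H)`, `J` the Jacobian of `X : y ^ 2 = f(x)` and `H` the fixed field of `s`, is uniquely divisible
by 2, so that the pro-2 image of `s` in `π₁(J)` is the section of `0` for every morphism `C → J`; and if
`C` has a morphism to `X` not constant equal to `∞`, then at every place over 2 the section is the section
of a point of `C` above the residue disc of `∞`. -/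
theorem result (F : Type) [Field F] [NumberField F] (g : ℕ) (hg : 1 ≤ g)
    (T : Finset (HeightOneSpectrum (𝓞 F))) (N : Type) [Field N] [NumberField N] [Algebra F N] :
    (∀ B : ℕ, (Polys F g B).Finite) ∧
    ∃ Q : Finset (HeightOneSpectrum (𝓞 F)), Disjoint Q T ∧ (∀ v ∈ Q, (2 : 𝓞 F) ∉ v.asIdeal) ∧
      (∀ v ∈ Q, SplitsCompletely v N) ∧
      ∃ c : ℝ, 0 < c ∧ ∀ᶠ B : ℕ in atTop, 0 < (Polys F g B).ncard ∧
        c * ((Polys F g B).ncard : ℝ) ≤ ({f ∈ Polys F g B | Good Q T f}.ncard : ℝ) := by
  have heq : ∀ B, Polys F g B = {f : (𝓞 F)[X] | Pool.Agent.N783.PF.Ht g B f} := by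
    intro B
    ext f
    exact ⟨fun h => ⟨h.monic, h.degree, h.trace, fun j hj σ => h.height j hj σ⟩,
      fun h => ⟨h.mon, h.deg, h.tr, fun j hj σ => h.ht j hj σ⟩⟩
  obtain ⟨Q, hQT, hQ2, hQN, c, hc, B₀, hB₀⟩ := Pool.Agent.Helper82.SY.main3 F hg T N
  have hfin : ∀ B : ℕ, (Polys F g B).Finite := by
    intro B
    have h1 := (hB₀ (max B B₀) (le_max_right _ _)).1
    rw [← heq] at h1
    refine h1.subset fun f hf => ⟨hf.monic, hf.degree, hf.trace, fun j hj σ => ?_⟩
    refine (hf.height j hj σ).trans ?_
    exact pow_le_pow_left₀ (Nat.cast_nonneg _) (by exact_mod_cast le_max_left B B₀) _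
  refine ⟨hfin, Q, hQT, hQ2, fun v hv => split_of (hQN v hv), c, hc, ?_⟩
  filter_upwards [eventually_ge_atTop B₀] with B hB
  obtain ⟨hHt, hle⟩ := hB₀ B hB
  have hspl : ∀ (M : Type) [Field M] [NumberField M] [Algebra F M] (v : HeightOneSpectrum (𝓞 F)),
      SplitsCompletely v M → Pool.Agent.N874.TF.Spl v M := by
    intro M _ _ _ v hv
    refine ⟨Pool.Agent.N874.TF.unr_of hv.1, fun w hw y => ?_⟩
    obtain ⟨y, rfl⟩ := Ideal.Quotient.mk_surjective y
    obtain ⟨c, hc⟩ := hv.2 w (Ideal.map_le_iff_le_comap.2 hw) y
    exact ⟨c, (Ideal.Quotient.eq.2 hc).symm⟩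
  have hsub : {f : (𝓞 F)[X] | Pool.Agent.N783.PF.Ht g B f ∧
        Irreducible (Pool.Agent.N783.PF.fF f) ∧
        (∀ v : HeightOneSpectrum (𝓞 F), (2 : 𝓞 F) ∈ v.asIdeal →
          Irreducible (Pool.Agent.N783.PF.rd v.asIdeal f)) ∧
        (∀ v ∈ T, Irreducible (Pool.Agent.N783.PF.rd v.asIdeal f)) ∧
        Pool.Agent.Helper82.TU.MonoF f ∧
        Pool.Agent.N874.TF.Tws g {𝔭 | ∃ v ∈ Q, 𝔭 = v.asIdeal} f ∧
        Pool.Agent.Helper82.TU.Unr2 {𝔭 | ∃ v ∈ Q, 𝔭 = v.asIdeal} f f ∧
        Pool.Agent.N783.PF.Min g f ∧
        ∀ v : HeightOneSpectrum (𝓞 F), (2 : 𝓞 F) ∈ v.asIdeal →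
          Pool.Agent.Helper82.SY.NoSq v f} ⊆ {f ∈ Polys F g B | Good Q T f} := by
    rintro f ⟨h1, h2, h3, h4, h4m, -, h5, -, h6⟩
    have hS : ∀ (M : Type) [Field M] [NumberField M] [Algebra F M], InClass Q f M → ∀ n : ℕ,
        Module.finrank F M = 2 ^ n →
        Pool.Agent.N874.QM.SelM M (Pool.Agent.N874.TF.fM M f) := by
      intro M _ _ _ hM n hn
      haveI := hM.galois
      exact h5 M (fun v hv => by
        obtain ⟨σ⟩ := hM.two v hv
        exact ⟨σ, fun y => σ.commutes y⟩) n hn (by
        rintro v ⟨v', hv', h⟩
        rw [HeightOneSpectrum.ext h]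
        exact hspl M v' (hM.split v' hv')) (by
        intro v hv
        rcases hM.ramified v with h | h
        · exact absurd (Pool.Agent.N874.TF.unr_of h) hv
        · exact h)
    refine ⟨⟨h1.mon, h1.deg, h1.tr, fun j hj σ => h1.ht j hj σ⟩, h2, h3, h4, ?_, ?_⟩
    · intro M _ _ _ hM L Ω L' B' _ _ _ _ _ _ _ _ _ _ _ _ _ _ U hU e he s hs
      haveI := hM.galois
      obtain ⟨n, hn⟩ := hM.degree
      have hb := Pool.Agent.Helper82.SZ.half_fin hn h1.mon h1.deg h2 (hS M hM n hn) h4m U hU e he
        s hs
      exact ⟨hb, fun m D => Pool.Agent.Helper82.SZ.roots_ext _ hb m D⟩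
    · intro M _ _ _ hM L Ω L' B' _ _ _ _ _ _ _ _ _ _ _ _ _ _ U hU e he x y hxy s hs
      haveI := hM.galois
      obtain ⟨n, hn⟩ := hM.degree
      obtain ⟨m1, m2⟩ := Pool.Agent.Helper82.SY.sec_two hn hg h1.mon h1.deg h2 (hS M hM n hn) h4m
        h3 h6 hM.two U hU e he hxy s hs
      exact ⟨m1, fun w hw => ⟨(m2 w hw).1, (m2 w hw).2⟩⟩
  have hfin2 : ({f ∈ Polys F g B | Good Q T f}).Finite := (hfin B).subset fun f hf => hf.1
  have h1 := Set.ncard_le_ncard hsub hfin2
  refine ⟨?_, ?_⟩
  · rw [Set.ncard_pos (hfin B)]
    refine ⟨X ^ (2 * g + 1), monic_X_pow _, natDegree_X_pow _, ?_, fun j hj σ => ?_⟩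
    · rw [coeff_X_pow, if_neg (by omega)]
    · rw [coeff_X_pow, if_neg (by omega)]
      have e0 : ((0 : 𝓞 F) : F) = 0 := rfl
      rw [e0, map_zero, norm_zero]
      positivity
  · rw [heq]
    refine hle.trans ?_
    rw [heq] at h1
    exact_mod_cast h1

end Pool.Agent.Results.MP_896029_ag.SectionsProTwo
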